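import Mathlib
import Pool.Agent.X212.PolishClass

set_option autoImplicit false

/-!
# Every positive integer is the number of Polish semigroup topologies of some semigroup

The semigroup with exactly `k + 1` Polish semigroup topologies consists of all permutations of `ℕ`,
extended to `X = ℕ ⊕ {k points}` by fixing the `k` points, and of all constant self-maps of `X`.
-/

namespace Pool.Agent.Results.MP_67072b_lc.EveryFiniteNumber

open Cardinal

/-- `t` is a Polish semigroup topology on `S`: it is Polish and multiplication is jointly
continuous. -/
def IsPolishSemigroupTopology {S : Type} [Semigroup S] (t : TopologicalSpace S) : Prop :=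
  @PolishSpace S t ∧
    @Continuous (S × S) S (@instTopologicalSpaceProd S S t t) t (fun p => p.1 * p.2)

/-- The number `N(S)` of Polish semigroup topologies on `S`. -/
noncomputable def numTop (S : Type) [Semigroup S] : Cardinal.{0} :=
  #{t : TopologicalSpace S // IsPolishSemigroupTopology t}

open Pool.Agent.X212.PolishSemi in
theorem numTop_Sg (k : ℕ) : numTop (Sg k) = (k + 1 : ℕ) := by
  let f : Option (Fin k) → {t : TopologicalSpace (Sg k) // IsPolishSemigroupTopology t} :=
    fun o => ⟨topo o, topo_polish o, topo_mul o⟩
  have hf : Function.Bijective f := by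
    constructor
    · intro o o' h
      exact topo_injective (congrArg Subtype.val h)
    · rintro ⟨t, hp, hm⟩
      obtain ⟨o, rfl⟩ := classify t hp hm
      exact ⟨o, rfl⟩
  have h := Cardinal.mk_congr (Equiv.ofBijective f hf)
  unfold numTop
  rw [← h]
  simp

/-- For every positive integer `n` there is a semigroup with exactly `n` Polish semigroup
topologies. In particular (`n = 2`) the number of Polish semigroup topologies of a semigroup can be
different from `0, 1, ℵ₀, 2 ^ ℵ₀` and `2 ^ (2 ^ ℵ₀)`. -/
theorem result : ∀ n : ℕ, 0 < n → ∃ (S : Type) (_ : Semigroup S), numTop S = n := by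
  intro n hn
  refine ⟨Pool.Agent.X212.PolishSemi.Sg (n - 1), inferInstance, ?_⟩
  rw [numTop_Sg]
  congr 1
  omega

end Pool.Agent.Results.MP_67072b_lc.EveryFiniteNumber
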